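import Mathlib
import Pool.Agent.Run7.h881.CK.Indep

/-!
# The number of rounds needed by PCP reductions to unique games

The standard gap reductions to games with two queries start with a projection game (Label Cover:
left vertices `u` with labels in `S`, right vertices `v` with labels in `G`, projections
`proj u v : S → G`), repeat it `k` times in parallel, replace every `k`-tuple of left vertices by a table
(the long code of its label, or any other code), and test one table, or the tables of two tuples which
have a common neighbour `(v_1, …, v_k)`. The basic game is usually the clause-variable game of a system
of constraints, for instance of linear equations: `u` runs through the constraints, `S` consists of the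
satisfying local assignments, and `v` runs through the variables. A right vertex with a table of its
own is the special case of a left vertex with one neighbour; gadget reductions are the case `k = 1`.
The definitions are in `Pool/Agent/Run7/h881/CK/Defs.lean`:

* `Source`: the projection game, with a probability distribution `mu u` of the labels of each left
  vertex `u` (for instance the uniform distribution on the satisfying local assignments), such that
  its projection to a neighbour `v` is a distribution `lam v` which depends on `v` only. Nothing is
  said about the value of this game: it may be satisfiable or far from satisfiable.
* `Source.Indep`: the projections of a random label of `u` to two different neighbours are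
  independent. So it is for all constraint satisfaction problems with pairwise independent
  predicates, as systems of linear equations with three variables in each equation.
* `Source.Spread A κ`: a more general condition: for `h : S → A` and different neighbours `v`, `v'`
  of `u`, the probability that `h` differs at two independent labels of `u` is at most `κ` times the
  sum of the probabilities that it differs at two labels with the same projection to `v`, or with
  the same projection to `v'`.
* `Composed`: a unique game with any vertices, any alphabet `A`, edges and permutations, composed with
  the product of the games `Q i`, `i : I`: every vertex `w` belongs to the table of a tuple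
  `own w : I → U` of left vertices, and it has an honest label `hon w a` for each tuple `a : I → S` of
  labels; for each edge and each coordinate `i` the left vertices of the two tables are equal or have
  the common neighbour `via e i`.
* `Composed.viol`: the probability that the honest labels violate the edge. Here the coordinates are
  independent, and in the coordinate `i` the labels of the two tables are equal if the left vertices
  are equal, and independent given that their projections to `via e i` are equal otherwise. (If for
  each pair of tables the tests of this pair are violated with probability at most `ε` for any two
  consistent tuples of labels, which is how completeness is proved, then the average of `viol` over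
  the edges is at most `ε`.)

The theorem: if the honest labels violate an edge with probability at most `ε` on average over the
edges (completeness `1 - ε`), then the game has a labelling of value at least
`1 - (1 + (8 κ + 6) k) ε`, and at least `1 - (1 + 14 k) ε` in the pairwise independent case, where `k` is
the number of rounds, whatever the value of the projection game is. So a reduction of this kind with
completeness `1 - ε` and soundness `δ`, for any alphabet, any tables and any tests, needs at least
`(1 - δ - ε) / (14 ε)` rounds, that is, blows up the size from `n` to about `n ^ ((1 - δ) / (14 ε))`; and with
a bounded number of rounds `k` such reductions cannot show that it is hard to approximate the number of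
violated constraints of a unique game within the factor `1 + 14 k`.

Proof. For each round and each right vertex `v` choose a random label of `v` and then random labels of
all left vertices with this projection; choose also random labels of the left vertices without this
condition. A vertex `w` of the game uses in the coordinate `i` the label that belongs to the
neighbour `v` if the influence of the coordinate `i` on `hon w`, given the projection to `v`, is less
than `θ` times its influence (there is at most one such `v`), and otherwise the last label. Here `θ` is a
random threshold. For an edge with small `viol` the influences of the two vertices are close to each
other, and a coordinate in which different left vertices meet has small influence given the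
projection to `via e i`. So the probability that the two vertices do not use consistent labels in the
coordinate `i`, times the sum of the two influences of `i`, is `O(viol)`.
-/

set_option autoImplicit false

namespace Pool.Agent.Results.MP_325f1f_lc.CompositionRounds

open Finset Run7.h881.CK

/-- Let `R` be a unique game composed with the parallel repetition of the projection games `Q i`,
with completeness `1 - ε`: on average over the edges the honest labels violate an edge with
probability at most `ε`. Let `k` be the number of rounds. If all `Q i` satisfy `Spread A κ` then some
labelling satisfies at least the fraction `1 - (1 + (8 κ + 6) k) ε` of the edges; if the projections
are pairwise independent in all `Q i` then some labelling satisfies at least the fraction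
`1 - (1 + 14 k) ε`. -/
theorem result {I U V S G W E A : Type} [Fintype I] [Fintype U] [Fintype V] [Fintype S]
    [Fintype G] [DecidableEq G] [Fintype E] [DecidableEq A] (Q : I → Source U V S G)
    (R : Composed Q W E A) (ε : ℝ) (hε : ∑ e, R.viol e ≤ ε * (Fintype.card E : ℝ)) :
    (∀ κ : ℝ, 0 < κ → (∀ i, (Q i).Spread A κ) → ∃ F : W → A,
      (1 - (1 + (8 * κ + 6) * Fintype.card I) * ε) * (Fintype.card E : ℝ) ≤
        ((univ.filter fun e => R.perm e (F (R.src e)) = F (R.tgt e)).card : ℝ)) ∧
    ((∀ i, (Q i).Indep) → ∃ F : W → A,
      (1 - (1 + 14 * Fintype.card I) * ε) * (Fintype.card E : ℝ) ≤
        ((univ.filter fun e => R.perm e (F (R.src e)) = F (R.tgt e)).card : ℝ)) := by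
  have key : ∀ κ : ℝ, 0 < κ → (∀ i, (Q i).Spread A κ) → ∃ F : W → A,
      (1 - (1 + (8 * κ + 6) * Fintype.card I) * ε) * (Fintype.card E : ℝ) ≤
        ((univ.filter fun e => R.perm e (F (R.src e)) = F (R.tgt e)).card : ℝ) := by
    intro κ hκ hQ
    obtain ⟨F, hF⟩ := R.main hκ hQ
    refine ⟨F, ?_⟩
    have h1 := Finset.card_filter_add_card_filter_not (s := (univ : Finset E))
      (fun e => R.perm e (F (R.src e)) = F (R.tgt e))
    have h2 : ((univ.filter fun e => R.perm e (F (R.src e)) = F (R.tgt e)).card : ℝ) +
        ((univ.filter fun e => ¬ R.perm e (F (R.src e)) = F (R.tgt e)).card : ℝ) =
        (Fintype.card E : ℝ) := by
      rw [← Finset.card_univ]
      exact_mod_cast h1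
    have h3 : ((univ.filter fun e => ¬ R.perm e (F (R.src e)) = F (R.tgt e)).card : ℝ) =
        ∑ e, ind (R.perm e (F (R.src e)) ≠ F (R.tgt e)) := by
      rw [Finset.card_filter, Nat.cast_sum]
      refine Finset.sum_congr rfl fun e _ => ?_
      unfold ind
      by_cases h : R.perm e (F (R.src e)) = F (R.tgt e) <;> simp [h]
    have h4 : (1 + (8 * κ + 6) * Fintype.card I) * ∑ e, R.viol e ≤
        (1 + (8 * κ + 6) * Fintype.card I) * (ε * (Fintype.card E : ℝ)) :=
      mul_le_mul_of_nonneg_left hε (by positivity)
    nlinarith
  refine ⟨key, fun hQ => ?_⟩
  obtain ⟨F, hF⟩ := key 1 zero_lt_one (fun i => (hQ i).spread A)
  refine ⟨F, le_trans (le_of_eq ?_) hF⟩
  ring

end Pool.Agent.Results.MP_325f1f_lc.CompositionRounds
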