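import Pool.Agent.Run7.h881.SA.Main

/-!
Unique games and the Sherali-Adams linear programs alone (no positive semidefiniteness) at level
`O(log (2/γ) n ^ r + n ^ (r/2) / (r ^ 2 ε ^ 4))`: loss `O(√(ε log (2/r) / r))`, for every alphabet
and every constraint graph.
-/

namespace Pool.Agent.Results.MP_325f1f_lc.SheraliAdamsTradeoff

open Finset

/-- `f` depends only on the labels of the vertices in `S`. -/
def DependsOn {V A : Type} (S : Finset V) (f : (V → A) → ℝ) : Prop :=
  ∀ x y : V → A, (∀ v ∈ S, x v = y v) → f x = f y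

/-- `L` is a solution of level `k` of the Sherali-Adams linear program: a normalised linear
functional on the functions of a labeling which is nonnegative on all nonnegative functions of at
most `k` labels. Only the values of `L` on functions of at most `k` labels matter: they are the
local distributions of the program. Nothing is required to be positive semidefinite. -/
structure IsSheraliAdams {V A : Type} (k : ℕ) (L : ((V → A) → ℝ) →ₗ[ℝ] ℝ) : Prop where
  one : L (fun _ => 1) = 1
  nonneg : ∀ S : Finset V, S.card ≤ k → ∀ f : (V → A) → ℝ, DependsOn S f → (∀ x, 0 ≤ f x) →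
    0 ≤ L f

/-- For every unique game (any finite alphabet, any constraint graph on `n` vertices) and all
`0 < r ≤ 1`, `0 < γ < 1`, `ε > 0` with `2 ^ 32 * ε * log (2 / r) ≤ r * γ ^ 2`: if level
`k ≥ 2 ^ 42 * (log (2 / γ) * n ^ r + n ^ (r / 2) / (r ^ 2 * ε ^ 4))` of the Sherali-Adams linear
program has a solution of value at least `1 - ε`, then some labeling satisfies at least a fraction
`1 - γ` of the edges. -/
theorem result (V A E : Type) [Fintype V] [Fintype A] [DecidableEq A] [Fintype E]
    (s t : E → V) (π : E → Equiv.Perm A) (r γ ε : ℝ) (k : ℕ) (L : ((V → A) → ℝ) →ₗ[ℝ] ℝ)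
    (hr : 0 < r) (hr1 : r ≤ 1) (hγ : 0 < γ) (hγ1 : γ < 1) (hε : 0 < ε)
    (hεγ : 2 ^ 32 * (ε * Real.log (2 / r)) ≤ r * γ ^ 2)
    (hk : 2 ^ 42 * (Real.log (2 / γ) * (Fintype.card V : ℝ) ^ r
      + (Fintype.card V : ℝ) ^ (r / 2) / (r ^ 2 * ε ^ 4)) ≤ k)
    (hL : IsSheraliAdams k L)
    (hval : (1 - ε) * (Fintype.card E : ℝ)
      ≤ ∑ e, L (fun x => if π e (x (s e)) = x (t e) then 1 else 0)) :
    ∃ x : V → A, (1 - γ) * (Fintype.card E : ℝ)
      ≤ ((univ.filter fun e => π e (x (s e)) = x (t e)).card : ℝ) := by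
  classical
  exact Run7.h881.SA.core s t π r γ ε hr hr1 hγ hγ1
    hε (by norm_num at hεγ ⊢; exact hεγ) k (by norm_num at hk ⊢; exact hk) L
    ⟨hL.one, hL.nonneg⟩ hval

end Pool.Agent.Results.MP_325f1f_lc.SheraliAdamsTradeoff
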