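import Pool.Agent.Run7.h625.CW.Barrier
import Pool.Agent.Run7.h625.SQ.OrcFin

/-!
Unique games and counting logic.

(1) Equivalence in the bijective `K`-pebble game (that is, in the `K`-variable fragment of counting
logic), with `K` of the order of `n ^ r`, preserves the value of a unique game up to the loss of
the Sherali-Adams tradeoff.

(2) Hence many-one reductions from linear systems modulo two to unique games that respect the
equivalence need a large dimension.

(3) The same for adaptive reductions (Turing reductions): an oracle that solves the gap problem of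
unique games is useless for the approximation of vertex cover in counting logic, unless it is asked
on games with about `n ^ (1 / r)` vertices, where `r = 2 ^ 34 * ε * log (1 / ε) / γ ^ 2`. Besides
the oracle, the logic has `w` variables, infinite conjunctions, counting, and all Lindstroem
quantifiers on small interpreted structures (`DfO` in `Pool/Agent/Run7/h625/SQ/OrcDf.lean`, which
uses `Query`, `Interp` and `Interp.Defines` in `Pool/Agent/Run7/h625/SQ/Defs.lean`).

Idea of the proof of (3). The oracle accepts the games that are equivalent, with `p` pebbles, to a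
game of value at least `1 - ε`; by (1) they have value at least `1 - γ`. The graphs are the graphs
of the satisfying assignments of the equations of an expanding system. The positions of the pebble
game on the graphs are related by locally consistent assignments. A game interpreted in the first
graph has to be compared with the game interpreted in the second graph, modulo definable
equivalence relations: Duplicator keeps a locally consistent assignment on the views of
representatives of the `p` pebbled elements, and the relation between the elements to have matched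
representatives has complete bipartite components with sides of equal size, which gives the
bijections.
-/

set_option autoImplicit false

namespace Pool.Agent.Results.MP_325f1f_lc.CountingLogic

open Filter Run7.h625.CW
open Run7.h625.SQ (Oracle ValGe CoverLe DfO)

/-- (1) Let `2 ^ 32 * ε * log (2 / r) ≤ r * γ ^ 2`. If Duplicator wins the bijective `K`-pebble game
on two unique games over the same alphabet with `n` vertices, where
`K ≥ 2 ^ 42 * (log (2 / γ) * n ^ r + n ^ (r / 2) / (r ^ 2 * ε ^ 4))`, and the first has value at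
least `1 - ε`, then the second has value at least `1 - γ`.

(2) If `d * 2 ^ 34 * ε * log (1 / ε) < γ ^ 2`, then no reduction of dimension `d` that respects
equivalence maps satisfiable linear systems modulo two to unique games of value at least `1 - ε`
and systems of value at most `1 / 2 + ρ` to unique games of value less than `1 - γ`.

(3) Let `r = 2 ^ 34 * ε * log (1 / ε) / γ ^ 2 ≤ 1`. There is an oracle `O` for unique games that
accepts all games of value at least `1 - ε` and only games of value at least `1 - γ`, such that for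
each `ρ > 0` there are `c > 0` and, for all large `n`, two graphs with `n` vertices, with vertex
cover numbers at most `3 k` and at least `(7 / 2 - ρ) k`, `k ≥ c n`, which are not distinguished by
the logic `DfO O w s d M` if `w + s n + d * (M n + 1) ^ r ≤ c * n`. -/
theorem result :
    (∀ (V W A : Type) [Fintype V] [Fintype W] [Fintype A] [DecidableEq A]
      (I : Str 2 (Equiv.Perm A) V) (J : Str 2 (Equiv.Perm A) W) (r γ ε : ℝ) (K : ℕ),
      0 < r → r ≤ 1 → 0 < γ → γ < 1 → 0 < ε →
      2 ^ 32 * (ε * Real.log (2 / r)) ≤ r * γ ^ 2 → 2 ≤ K →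
      2 ^ 42 * (Real.log (2 / γ) * (Fintype.card V : ℝ) ^ r
        + (Fintype.card V : ℝ) ^ (r / 2) / (r ^ 2 * ε ^ 4)) ≤ K →
      DuplicatorWins K I J →
      (∃ x : V → A, (1 - ε) * (total I : ℝ) ≤ ugSat I x) →
      ∃ y : W → A, (1 - γ) * (total J : ℝ) ≤ ugSat J y) ∧
    (∀ ε γ ρ : ℝ, 0 < ε → ε ≤ 1 / 2 → 0 < γ → γ < 1 → 0 < ρ →
      ∀ d l B : ℕ, 1 ≤ d →
      (d : ℝ) * (2 ^ 34 * (ε * Real.log (1 / ε))) < γ ^ 2 →
      ∀ (A : ℕ → Type) [∀ N, Fintype (A N)] [∀ N, DecidableEq (A N)]
        (R : ∀ N : ℕ, Str 3 (ZMod 2) (Fin N) → Inst 2 (Equiv.Perm (A N))),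
        ¬ IsReduction ε γ ρ d l B A R) ∧
    (∀ ε γ r : ℝ, 0 < ε → ε ≤ 1 / 2 → 0 < γ → γ < 1 →
      r = 2 ^ 34 * (ε * Real.log (1 / ε)) / γ ^ 2 → r ≤ 1 →
      ∃ O : Oracle,
        (∀ (A : Type) [Fintype A] [DecidableEq A] (N : ℕ) (J : Str 2 (Equiv.Perm A) (Fin N)),
          ValGe ε J → J ∈ O A N) ∧
        (∀ (A : Type) [Fintype A] [DecidableEq A] (N : ℕ) (J : Str 2 (Equiv.Perm A) (Fin N)),
          J ∈ O A N → ValGe γ J) ∧
        (∀ (A : Type) [Fintype A] [DecidableEq A] (N : ℕ) (J : Str 2 (Equiv.Perm A) (Fin N))
          (e : Fin N ≃ Fin N), J ∈ O A N → relabel e J ∈ O A N) ∧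
        ∀ ρ : ℝ, 0 < ρ → ∃ c : ℝ, 0 < c ∧ ∀ᶠ n : ℕ in atTop,
          ∃ (k : ℕ) (G H : SimpleGraph (Fin n)), c * n ≤ k ∧ 4 * k ≤ n ∧ CoverLe G (3 * k) ∧
            (∀ t, CoverLe H t → (7 / 2 - ρ) * k ≤ t) ∧
            ∀ (w d : ℕ) (s M : ℕ → ℕ), (w : ℝ) + s n + d * ((M n : ℝ) + 1) ^ r ≤ c * n →
              ∀ q, DfO O w s d M Empty q →
                (q (Fin n) G Empty.elim ↔ q (Fin n) H Empty.elim)) := by
  refine ⟨?_, ?_, ?_⟩
  · intro V W A _ _ _ _ I J r γ ε K hr hr1 hγ hγ1 hε hεγ hK2 hK h hx
    obtain ⟨x, hx⟩ := hx
    exact ug_transfer I J r γ ε K hr hr1 hγ hγ1 hε hεγ hK2 hK h x hx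
  · intro ε γ ρ hε hε1 hγ hγ1 hρ d l B hd hdε A _ _ R
    exact barrier ε γ ρ hε hε1 hγ hγ1 hρ d l B hd hdε A R
  · intro ε γ r hε hε1 hγ hγ1 hr hr1
    exact Run7.h625.SQ.ug_oracle ε γ r hε hε1 hγ hγ1 hr hr1

end Pool.Agent.Results.MP_325f1f_lc.CountingLogic
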