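import Pool.Agent.Run7.h881.GP.Fin

/-!
The integrality gap of the basic semidefinite program of unique games on `n` vertices is
`n ^ o(1)`, for every alphabet, every constraint graph and every fixed completeness.
-/

set_option autoImplicit false

namespace Pool.Agent.Results.MP_325f1f_lc.SubpolynomialGap

open Finset Pool.Agent.H562R2

/-- Solutions of the basic semidefinite relaxation of the unique game with edges `(s e, t e)` and
constraints `π e`, of value at least `κ`: vectors `x u a` and `y v a` (in a finite-dimensional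
space) for the vertices and labels, which for each vertex are pairwise orthogonal and sum to one
common unit vector `z`, with nonnegative inner products, and
`∑_e ∑_a ⟨x (s e) a, y (t e) (π e a)⟩ ≥ κ |E|`. -/
def SdpSolution {U V E A D : Type} [Fintype E] [Fintype A] [Fintype D] (s : E → U) (t : E → V)
    (π : E → Equiv.Perm A) (κ : ℝ) (x : U → A → D → ℝ) (y : V → A → D → ℝ) : Prop :=
  (∃ z : D → ℝ, z ⬝ᵥ z = 1 ∧ (∀ u, ∑ a, x u a = z) ∧ (∀ v, ∑ b, y v b = z)) ∧
  (∀ u a a', a ≠ a' → x u a ⬝ᵥ x u a' = 0) ∧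
  (∀ v b b', b ≠ b' → y v b ⬝ᵥ y v b' = 0) ∧
  (∀ u a u' a', 0 ≤ x u a ⬝ᵥ x u' a') ∧
  (∀ u a v b, 0 ≤ x u a ⬝ᵥ y v b) ∧
  (∀ v b v' b', 0 ≤ y v b ⬝ᵥ y v' b') ∧
  κ * (Fintype.card E : ℝ) ≤ ∑ e, ∑ a, x (s e) a ⬝ᵥ y (t e) (π e a)

/-- For every unique game on `n = |U| + |V|` vertices (any finite alphabet `A`, any bipartite
multigraph) and every `0 < κ ≤ 1`: if the basic semidefinite program has a solution of value at
least `κ`, then some labeling satisfies at least a fraction
`exp (-3000 (√(log (1/κ) * log n * log (log n + 2)) + (log (1/κ) + 1) * log (log n + 2)))`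
of the edges. -/
theorem result (U V E A D : Type) [Fintype U] [Fintype V] [Fintype E] [Nonempty E] [Fintype A]
    [DecidableEq A] [Fintype D] (s : E → U) (t : E → V) (π : E → Equiv.Perm A)
    (x : U → A → D → ℝ) (y : V → A → D → ℝ) (κ N : ℝ) (hκ : 0 < κ) (hκ1 : κ ≤ 1)
    (hN : N = Real.log ((Fintype.card U : ℝ) + Fintype.card V))
    (h : SdpSolution s t π κ x y) :
    ∃ (L : U → A) (M : V → A),
      Real.exp (-(3000 * (Real.sqrt (Real.log (1 / κ) * N * Real.log (N + 2)) +
        (Real.log (1 / κ) + 1) * Real.log (N + 2)))) * (Fintype.card E : ℝ) ≤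
        ((univ.filter fun e => π e (L (s e)) = M (t e)).card : ℝ) := by
  classical
  obtain ⟨⟨z, hz, hzx, hzy⟩, h1, h2, h3, h4, h5, hval⟩ := h
  have hfeas : SdpFeasible x y := ⟨z, hz, hzx, hzy, h1, h2, h3, h4, h5⟩
  have hfib : ∀ e b, (univ.filter fun a => (fun e a => π e a) e a = b).card ≤ 1 := by
    intro e b
    rw [Finset.card_le_one]
    intro a ha a' ha'
    simp only [Finset.mem_filter, Finset.mem_univ, true_and] at ha ha'
    exact (π e).injective (ha.trans ha'.symm)
  exact Run7.h881.GP.gap s t (fun e a => π e a) 1 one_pos hfib hfeas κ hκ hκ1 hval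
    (Real.log (1 / κ)) N (by rw [Nat.cast_one]) (by
      rw [hN, Fintype.card_sum]
      push_cast
      rfl)

end Pool.Agent.Results.MP_325f1f_lc.SubpolynomialGap
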